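import Pool.Agent.TH604.WG.Main

/-!
# Weak geodesics between Kaehler metrics need not have strictly positive slices

Negative answer to Q1 (Tosatti) of MP_8d5978_gt: on the torus `X = ℂ / ℤ[i]` with the Kaehler form
`ω = c dd^c |x|²` there are Kaehler forms `ω + dd^c φ₁`, `ω + dd^c φ₂` such that, if `φ` is the weak
geodesic joining them, the current `ω + dd^c φ_z` is not strictly positive, for every `z` in a
prescribed compact sub-annulus of `A`.
-/

set_option autoImplicit false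

namespace Pool.Agent.Results.MP_8d5978_gt.NotStrictlyPositive

open Pool.Agent.TH604.WG

/-- For every annulus `A = {a < |z| < b}` and every compact sub-annulus `{a₁ ≤ |z| ≤ b₁}` of `A`
there are a Kaehler form `ω = c dd^c |x|²` on `X = ℂ / ℤ[i]` and Kaehler potentials `φ₁, φ₂` such
that for the weak geodesic `φ` joining `ω + dd^c φ₁` and `ω + dd^c φ₂` none of the currents
`ω + dd^c φ_z`, `a₁ ≤ |z| ≤ b₁`, is strictly positive. -/
theorem result {a b a₁ b₁ : ℝ} (ha : 0 < a) (h1 : a < a₁) (h2 : a₁ ≤ b₁) (h3 : b₁ < b) :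
    ∃ c : ℝ, 0 < c ∧ ∃ φ₁ φ₂ : ℂ → ℝ, IsKahlerPotential c φ₁ ∧ IsKahlerPotential c φ₂ ∧
      ∀ φ : ℂ × ℂ → ℝ, IsWeakGeodesic c a b φ₁ φ₂ φ →
        ∀ z : ℂ, a₁ ≤ ‖z‖ → ‖z‖ ≤ b₁ → ¬ StrictlyPositive c (fun x => φ (x, z)) :=
  main ha h1 h2 h3

end Pool.Agent.Results.MP_8d5978_gt.NotStrictlyPositive
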